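import Pool.Agent.H.MP_eff1f1_co.A

set_option autoImplicit false

namespace Pool.Agent.Results.MP_eff1f1_co.No

variable {n : ℕ}

def closure (d : ℕ) (Γ : Set (Finset (Fin n))) : Set (Finset (Fin n)) :=
  {F | F.card ≤ d ∨ ∀ G ⊆ F, G.card = d + 1 → G ∈ Γ}

def Facet (Γ : Set (Finset (Fin n))) (F : Finset (Fin n)) : Prop :=
  F ∈ Γ ∧ ∀ G ∈ Γ, F ⊆ G → G = F

def Simplicial (d : ℕ) (Γ : Set (Finset (Fin n))) (E : Finset (Fin n)) : Prop :=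
  E ∈ Γ ∧ E.card = d ∧ ∃! F, Facet Γ F ∧ E ⊆ F

def delete (Γ : Set (Finset (Fin n))) (E : Finset (Fin n)) : Set (Finset (Fin n)) :=
  {F ∈ Γ | ¬ E ⊂ F}

def Chordal (d : ℕ) (Γ : Set (Finset (Fin n))) : Prop :=
  Relation.ReflTransGen (fun Γ Γ' => ∃ E, Simplicial d Γ E ∧ ¬ Facet Γ E ∧ Γ' = delete Γ E) Γ
    {F | F.card ≤ d}

theorem result : ∃ Γ : Set (Finset (Fin 8)), (∀ F ∈ Γ, ∀ G ⊆ F, G ∈ Γ) ∧ Γ = closure 3 Γ ∧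
    Chordal 3 Γ ∧ ∃ E, Simplicial 3 Γ E ∧ ¬ Chordal 3 (delete Γ E) :=
  Pool.Agent.H.MP_eff1f1_co.main

end Pool.Agent.Results.MP_eff1f1_co.No
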